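import Pool.Agent.H.MP_ac8f1a_ag.C

namespace Pool.Agent.Results.MP_ac8f1a_ag.Counter

open MvPolynomial Pool.Agent.H.MP_eea557_ag Pool.Agent.H.MP_ac8f1a_ag

variable {K : Type} [Field K] {l : ℕ} {ι : Type} [Fintype ι]

/-- α is a central arrangement: nonzero, pairwise non-proportional linear forms. -/
def IsArr (α : ι → MvPolynomial (Fin l) K) : Prop :=
  (∀ H, (α H).IsHomogeneous 1 ∧ α H ≠ 0) ∧ Pairwise fun H H' => ¬ Associated (α H) (α H')

/-- The rows of θ are homogeneous elements of D(A) and (-1)^i det M_i = g_i Q. -/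
def IsData (α : ι → MvPolynomial (Fin l) K)
    (θ : Matrix (Fin (l + 1)) (Fin l) (MvPolynomial (Fin l) K))
    (g : Fin (l + 1) → MvPolynomial (Fin l) K) : Prop :=
  (∀ i, θ i ∈ DA α) ∧ (∀ i, ∃ d, ∀ j, (θ i j).IsHomogeneous d) ∧
    ∀ i : Fin (l + 1), (-1) ^ (i.1 + 1) * (θ.submatrix i.succAbove id).det = g i * ∏ H, α H

/-- Hypotheses (H). -/
def HypH (α : ι → MvPolynomial (Fin l) K) (g : Fin (l + 1) → MvPolynomial (Fin l) K) : Prop :=
  g (Fin.last l) ≠ 0 ∧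
    (∀ i : Fin l, g i.castSucc ≠ 0 ∧ ∃ d, 0 < d ∧ (g i.castSucc).IsHomogeneous d) ∧
    (¬ ∃ h d, 0 < d ∧ h.IsHomogeneous d ∧
      ∀ i : Fin l, g i.castSucc ∈ Ideal.span {h, g (Fin.last l)}) ∧
    CategoryTheory.projectiveDimension (ModuleCat.of (MvPolynomial (Fin l) K) (DA α)) = 1

/-- η is a minimal generating family of D(A), with η i homogeneous of degree d i. -/
def IsMinGen {κ : Type} (α : ι → MvPolynomial (Fin l) K)
    (η : κ → Fin l → MvPolynomial (Fin l) K) (d : κ → ℕ) : Prop :=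
  (∀ i j, (η i j).IsHomogeneous (d i)) ∧
    Submodule.span (MvPolynomial (Fin l) K) (Set.range η) = DA α ∧
    ∀ i, η i ∉ Submodule.span (MvPolynomial (Fin l) K) (η '' {i}ᶜ)

/-- The resolution shape of Q1: minimal generators η of degrees d, indexed by l + m indices,
whose relation module is free on relations N k of degree d (l + k) + 1, for k < m. -/
def HasShape (α : ι → MvPolynomial (Fin l) K) : Prop :=
  ∃ (m : ℕ) (η : Fin l ⊕ Fin m → Fin l → MvPolynomial (Fin l) K) (d : Fin l ⊕ Fin m → ℕ)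
    (N : Fin m → Fin l ⊕ Fin m → MvPolynomial (Fin l) K), IsMinGen α η d ∧
    (∀ k i, N k i = 0 ∨ ∃ e, (N k i).IsHomogeneous e ∧ e + d i = d (Sum.inr k) + 1) ∧
    LinearIndependent (MvPolynomial (Fin l) K) N ∧
    ∀ a : Fin l ⊕ Fin m → MvPolynomial (Fin l) K,
      ∑ i, a i • η i = 0 ↔ a ∈ Submodule.span (MvPolynomial (Fin l) K) (Set.range N)

theorem result (K : Type) [Field K] [CharZero K] :
    ∃ (α : Fin 7 → MvPolynomial (Fin 3) K) (θ : Matrix (Fin 4) (Fin 3) (MvPolynomial (Fin 3) K))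
      (g : Fin 4 → MvPolynomial (Fin 3) K),
      IsArr α ∧ IsData α θ g ∧ HypH α g ∧ ¬ HasShape α := by
  obtain ⟨h1, h2, h3⟩ := q_hom (K := K)
  have x3 : (X 0 ^ 3 : MvPolynomial (Fin 3) K).IsHomogeneous 3 := isHomogeneous_X_pow _ _
  refine ⟨al K, Matrix.of ![T K 0, T K 1 + (X 0 ^ 3 : MvPolynomial (Fin 3) K) • T K 0, T K 2, T K 3],
    ![-(X 0 ^ 3 * q3 K), q3 K, -q2 K, q1 K],
    ⟨fun H => ⟨al_hom H, al_ne H⟩, fun i j h e => al_nd h e.dvd⟩, ⟨?_, ?_, ?_⟩,
    ⟨q1_ne, ?_, ?_, pd⟩, ?_⟩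
  · intro i
    fin_cases i
    exacts [T_mem 0, add_mem (T_mem 1) (Submodule.smul_mem _ _ (T_mem 0)), T_mem 2, T_mem 3]
  · intro i
    fin_cases i
    exacts [⟨1, T_hom (K := K) 0⟩,
      ⟨4, fun j => (T_hom (K := K) 1 j).add (x3.mul (T_hom (K := K) 0 j))⟩,
      ⟨4, T_hom (K := K) 2⟩, ⟨4, T_hom (K := K) 3⟩]
  · intro i
    fin_cases i <;>
      simp [Matrix.det_fin_three, Fin.succAbove, T, al, Fin.prod_univ_succ, Fin.lt_def] <;> ring
  · intro i
    fin_cases i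
    exacts [⟨neg_ne_zero.2 (mul_ne_zero (pow_ne_zero _ (X_ne_zero _)) q3_ne), 5, by norm_num,
      (x3.mul h3).neg⟩, ⟨q3_ne, 2, by norm_num, h3⟩, ⟨neg_ne_zero.2 q2_ne, 2, by norm_num, h2.neg⟩]
  · rintro ⟨h, d, hd, hh, hg⟩
    exact nodiv h d hd hh (hg 1) (hg 2)
  · rintro ⟨m, η, d, N, ⟨a1, a2, a3⟩, b1, b2, b3⟩
    rcases m with _ | m
    · apply not_proj (K := K)
      have li : LinearIndependent (MvPolynomial (Fin 3) K) η := by
        rw [Fintype.linearIndependent_iff]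
        intro a ha
        have := (b3 a).1 ha
        rw [Set.range_eq_empty, Submodule.span_empty, Submodule.mem_bot] at this
        exact congrFun this
      rw [← a2]
      exact Module.Projective.of_basis (Module.Basis.span li)
    · exact b2.ne_zero 0 (abstract η d a1 a3 (T K) _ T_hom 4 (by decide) (a2.trans span_T.symm) low
        (N 0) (Sum.inr 0) ((b3 _).2 (Submodule.subset_span ⟨0, rfl⟩)) (b1 0))

end Pool.Agent.Results.MP_ac8f1a_ag.Counter
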